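import Pool.Agent.Lib.MP_bc213e_ag.KBD.Lift

/-! In the top order the twist by the hyperplane bundle does not matter. -/

namespace Pool.Agent.Lib.MP_bc213e_ag.KBD

open Pool.Agent.Lib.MP_bc213e_ag.Hyp Pool.Agent.Lib.MP_bc213e_ag.KBB Filter Module Topology

open Polynomial in
theorem poly_diff (p : ℚ[X]) {ν : ℕ} {B : ℚ}
    (h : ∀ᶠ μ : ℕ in atTop, 0 ≤ p.eval (μ : ℚ) ∧ p.eval (μ : ℚ) ≤ B * ((μ : ℚ) + 1) ^ ν)
    {e : ℕ} (he : 0 < e) (j : ℕ) {ε : ℚ} (hε : 0 < ε) :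
    ∀ᶠ b : ℕ in atTop, p.eval ((b * e + j : ℕ) : ℚ) ≤
      p.eval ((b * e : ℕ) : ℚ) + ε * ((b : ℚ) + 1) ^ ν := by
  have hq : ((X + C 1 : ℚ[X]) ^ ν).degree = ν := by
    rw [degree_pow, degree_X_add_C]; simp
  have hq0 : (X + C 1 : ℚ[X]) ^ ν ≠ 0 := pow_ne_zero _ (X_add_C_ne_zero 1)
  have hd : p.degree ≤ ((X + C 1 : ℚ[X]) ^ ν).degree := by
    by_contra hlt
    have h1 := ((abs_div_tendsto_atTop_atTop_of_degree_gt p _ (not_le.1 hlt) hq0).comp
      tendsto_natCast_atTop_atTop).eventually_gt_atTop B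
    obtain ⟨μ, ⟨h2, h3⟩, h4⟩ := (h.and h1).exists
    have h5 : (0 : ℚ) < ((μ : ℚ) + 1) ^ ν := by positivity
    simp only [Function.comp, eval_pow, eval_add, eval_X, eval_C] at h4
    rw [abs_of_nonneg (div_nonneg h2 h5.le), lt_div_iff₀ h5] at h4
    exact absurd h3 (not_le.2 h4)
  have hd' : (taylor (j : ℚ) p - p).degree < ((X + C 1 : ℚ[X]) ^ ν).degree := by
    by_cases hp : p = 0
    · rw [hp, map_zero, sub_zero, degree_zero, hq]
      exact WithBot.bot_lt_coe _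
    · refine lt_of_lt_of_le (degree_sub_lt_left (degree_taylor p _) (by simpa using hp)
        (leadingCoeff_taylor _ p)) ?_
      rwa [degree_taylor]
  have ht : Tendsto (fun b : ℕ => ((b * e : ℕ) : ℚ)) atTop atTop :=
    tendsto_natCast_atTop_atTop.comp (tendsto_id.atTop_mul_const' he)
  have he' : (0 : ℚ) < (e : ℚ) ^ ν := by positivity
  refine (((div_tendsto_atTop_zero_of_degree_lt _ _ hd').comp ht).eventually_lt_const
    (div_pos hε he')).mono fun b hb => ?_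
  have h5 : (0 : ℚ) < (((b * e : ℕ) : ℚ) + 1) ^ ν := by positivity
  simp only [Function.comp, eval_pow, eval_add, eval_X, eval_C, eval_sub, taylor_eval] at hb
  rw [div_lt_iff₀ h5] at hb
  have h6 : (((b * e : ℕ) : ℚ) + 1) ^ ν ≤ (e : ℚ) ^ ν * ((b : ℚ) + 1) ^ ν := by
    rw [← mul_pow]
    have : (1 : ℚ) ≤ e := by exact_mod_cast he
    gcongr
    push_cast
    nlinarith
  have h7 : ε / (e : ℚ) ^ ν * (((b * e : ℕ) : ℚ) + 1) ^ ν ≤ ε * ((b : ℚ) + 1) ^ ν := by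
    refine (mul_le_mul_of_nonneg_left h6 (div_pos hε he').le).trans_eq ?_
    field_simp
  rw [Nat.cast_add]
  linarith

open Polynomial in
theorem exists_spec (P : MvPolynomial (Fin 2) ℚ) (t : ℚ) :
    ∃ p : ℚ[X], ∀ a : ℚ, p.eval a = MvPolynomial.eval ![t, a] P := by
  refine ⟨MvPolynomial.aeval ![C t, X] P, fun a => ?_⟩
  induction P using MvPolynomial.induction_on with
  | C c => simp
  | add p q hp hq => simp only [map_add, eval_add, hp, hq]
  | mul_X p i hp =>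
    simp only [map_mul, eval_mul, hp, MvPolynomial.aeval_X, MvPolynomial.eval_X]
    fin_cases i <;> simp

variable {K ι : Type} [Field K] [Algebra ℂ K] {x g : ι → Kˣ}

theorem secS_le_Bd [Fintype ι] [Nonempty ι] (x g : ι → Kˣ) (μ : ℕ) :
    SecS x g 0 μ ≤ Bd (fun i => (x i : K)) μ := by
  intro s hs O c h1 h2 _ h4
  obtain ⟨i, hi⟩ := Finite.exists_max fun i => O.valuation (x i)
  have h3 : s / (x i : K) ^ μ ∈ chart x i := by simpa using hs i
  have h5 := Basic_le O.valuation (fun z => (O.valuation_le_one_iff _).2 (h1 z)) x i hi _ h3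
  rw [O.valuation_le_one_iff] at h5
  have h6 := O.mul_mem _ _ h5 (pow_mem (h4 i) μ)
  rwa [div_pow, div_mul_div_cancel₀ (pow_ne_zero _ (x i).ne_zero)] at h6

theorem untwist [Fintype ι] (hc : Cart x g) (hn : Nef x g) {i₀ : ι} (one : x i₀ = 1)
    (gen : IntermediateField.adjoin ℂ (Set.range fun i => (x i : K)) = ⊤) {ν : ℕ}
    (dim : Algebra.trdeg ℂ K ≤ ν) (j : ℕ) {ε : ℚ} (hε : 0 < ε) :
    ∀ᶠ b : ℕ in atTop, (finrank ℂ (SecS x g b j) : ℚ) ≤
      finrank ℂ (SecS x g b 0) + ε * ((b : ℚ) + 1) ^ ν := by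
  have : Nonempty ι := ⟨i₀⟩
  obtain ⟨n, hn'⟩ := Cardinal.lt_aleph0.1 (dim.trans_lt (Cardinal.natCast_lt_aleph0 (n := ν)))
  have hnν : n ≤ ν := by rwa [hn', Nat.cast_le] at dim
  obtain ⟨B, hB⟩ := cd_dim _ gen hn'
  obtain ⟨P, a₀, hP⟩ := uniform x g hc hn
  obtain ⟨e, he, h⟩ := twist_le hc hn one
  obtain ⟨p, hpP⟩ := exists_spec P 0
  have hp : ∀ μ : ℕ, a₀ ≤ μ → (finrank ℂ (SecS x g 0 μ) : ℚ) = p.eval (μ : ℚ) :=
    fun μ hμ => by simpa [hpP] using (hP 0 μ hμ).2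
  have hN : (0 : ℚ) < Fintype.card ι := by exact_mod_cast Fintype.card_pos
  have h1 := poly_diff p (ν := ν) (B := B) ((eventually_ge_atTop a₀).mono
    fun μ hμ => by
      rw [← hp μ hμ]
      refine ⟨Nat.cast_nonneg _, ?_⟩
      have := (hB μ).1
      have h2 := (Submodule.finrank_mono (secS_le_Bd x g μ)).trans ((hB μ).2.trans
        (Nat.mul_le_mul_left B (Nat.pow_le_pow_right (Nat.succ_pos μ) hnν)))
      exact_mod_cast h2) he j (div_pos hε hN)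
  refine (h1.and (eventually_ge_atTop a₀)).mono fun b ⟨hb, hb0⟩ => ?_
  have h3 : a₀ ≤ b * e := hb0.trans (Nat.le_mul_of_pos_right b he)
  rw [← hp _ h3, ← hp _ (h3.trans (Nat.le_add_right _ j))] at hb
  have h4 : ((finrank ℂ (SecS x g b j) + Fintype.card ι * finrank ℂ (SecS x g 0 (b * e)) : ℕ) : ℚ)
      ≤ ((finrank ℂ (SecS x g b 0) + Fintype.card ι * finrank ℂ (SecS x g 0 (b * e + j)) : ℕ) : ℚ) :=
    Nat.cast_le.2 (h b j)
  have h5 := mul_le_mul_of_nonneg_left hb hN.le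
  rw [mul_add, ← mul_assoc, mul_div_cancel₀ _ hN.ne'] at h5
  push_cast at h4
  linarith

end Pool.Agent.Lib.MP_bc213e_ag.KBD
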