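import Pool.Agent.Lib.MP_bc213e_ag.KBB.Res2

/-! The centre of a valuation ring as an integral subvariety. -/

namespace Pool.Agent.Lib.MP_bc213e_ag.KBD

open Pool.Agent.Lib.MP_bc213e_ag.Hyp Pool.Agent.Lib.MP_bc213e_ag.KBB Module

variable {K ι : Type} [Field K] [Algebra ℂ K] {x g : ι → Kˣ}

/-- A linear extension of the residue map of `O`. -/
structure Rs (O : ValuationSubring K) (F1 : Type) [Field F1] [Algebra ℂ F1] where
  res : K →ₗ[ℂ] F1
  hC : ∀ z : ℂ, algebraMap ℂ K z ∈ O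
  one : res 1 = 1
  mul : ∀ a ∈ O, ∀ b ∈ O, res (a * b) = res a * res b
  ker : ∀ a ∈ O, res a = 0 ↔ O.valuation a < 1

theorem exists_rs (O : ValuationSubring K) (hC : ∀ z : ℂ, algebraMap ℂ K z ∈ O) :
    ∃ (F1 : Type) (_ : Field F1) (_ : Algebra ℂ F1), Nonempty (Rs O F1) := by
  let φ : ℂ →+* O := (algebraMap ℂ K).codRestrict O.toSubring hC
  let _ : Algebra ℂ (IsLocalRing.ResidueField O) := ((IsLocalRing.residue O).comp φ).toAlgebra
  let M : Submodule ℂ K :=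
    { carrier := O
      add_mem' := fun ha hb => add_mem ha hb
      zero_mem' := zero_mem O
      smul_mem' := fun c z hz => by rw [Algebra.smul_def]; exact mul_mem (hC c) hz }
  let r : M →ₗ[ℂ] IsLocalRing.ResidueField O :=
    { toFun := fun z => IsLocalRing.residue O ⟨z.1, z.2⟩
      map_add' := fun a b => map_add (IsLocalRing.residue O) ⟨a.1, a.2⟩ ⟨b.1, b.2⟩
      map_smul' := fun c a =>
        (congrArg (IsLocalRing.residue O) (Subtype.ext (Algebra.smul_def c a.1))).trans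
          (map_mul (IsLocalRing.residue O) (φ c) ⟨a.1, a.2⟩) }
  obtain ⟨ρ, hρ⟩ := r.exists_extend
  have h : ∀ z (hz : z ∈ O), ρ z = IsLocalRing.residue O ⟨z, hz⟩ := fun z hz =>
    LinearMap.congr_fun hρ ⟨z, hz⟩
  refine ⟨_, inferInstance, inferInstance, ⟨ρ, hC, (h 1 (one_mem O)).trans (map_one _),
    fun a ha b hb => ?_, fun a ha => ?_⟩⟩
  · rw [h a ha, h b hb, h _ (mul_mem ha hb), ← map_mul]
    rfl
  · rw [h a ha, IsLocalRing.residue_eq_zero_iff, O.valuation_lt_one_iff]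

namespace Rs

variable {O : ValuationSubring K} {F1 : Type} [Field F1] [Algebra ℂ F1] (ρ : Rs O F1)

/-- The residue map as a ring homomorphism. -/
def hom : O →+* F1 where
  toFun z := ρ.res z
  map_one' := ρ.one
  map_mul' a b := ρ.mul _ a.2 _ b.2
  map_zero' := map_zero ρ.res
  map_add' _ _ := map_add ρ.res _ _

theorem res_c (c : ℂ) : ρ.res (algebraMap ℂ K c) = algebraMap ℂ F1 c := by
  rw [Algebra.algebraMap_eq_smul_one, map_smul, ρ.one, Algebra.algebraMap_eq_smul_one]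

theorem res_pow {a : K} (ha : a ∈ O) (e : ℕ) : ρ.res (a ^ e) = ρ.res a ^ e :=
  map_pow ρ.hom ⟨a, ha⟩ e

theorem val_eq {a : K} (ha : a ∈ O) (h : ρ.res a ≠ 0) : O.valuation a = 1 :=
  le_antisymm ((O.valuation_le_one_iff a).2 ha) (not_lt.1 fun h1 => h ((ρ.ker a ha).2 h1))

theorem res_ne {a : K} (h : O.valuation a = 1) : a ∈ O ∧ ρ.res a ≠ 0 :=
  ⟨(O.valuation_le_one_iff a).1 h.le, fun h0 =>
    ((ρ.ker a ((O.valuation_le_one_iff a).1 h.le)).1 h0).ne h⟩

theorem res_div {a b : K} (ha : a ∈ O) (hb : b ∈ O) (h : ρ.res b ≠ 0) :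
    a / b ∈ O ∧ ρ.res (a / b) = ρ.res a / ρ.res b := by
  have hb0 : b ≠ 0 := fun h0 => h (by rw [h0, map_zero])
  have h1 : a / b ∈ O := by
    rw [← O.valuation_le_one_iff, map_div₀, ρ.val_eq hb h, div_one, O.valuation_le_one_iff]
    exact ha
  refine ⟨h1, eq_div_of_mul_eq h ?_⟩
  rw [← ρ.mul _ h1 _ hb, div_mul_cancel₀ _ hb0]

theorem adjoin_mem (E : IntermediateField ℂ F1) {S : Set K} (hS : ∀ z ∈ S, z ∈ O ∧ ρ.res z ∈ E)
    {r : K} (hr : r ∈ Algebra.adjoin ℂ S) : r ∈ O ∧ ρ.res r ∈ E := by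
  induction hr using Algebra.adjoin_induction with
  | mem r hr => exact hS r hr
  | algebraMap c => exact ⟨ρ.hC c, ρ.res_c c ▸ E.algebraMap_mem c⟩
  | add a b _ _ ha hb => exact ⟨add_mem ha.1 hb.1, map_add ρ.res a b ▸ add_mem ha.2 hb.2⟩
  | mul a b _ _ ha hb => exact ⟨mul_mem ha.1 hb.1, ρ.mul a ha.1 b hb.1 ▸ mul_mem ha.2 hb.2⟩

theorem integral (E : IntermediateField ℂ F1) {S : Set K} (hS : ∀ z ∈ S, z ∈ O ∧ ρ.res z ∈ E)
    {r : K} (hr : IsIntegral (Algebra.adjoin ℂ S) r) : r ∈ O ∧ IsIntegral E (ρ.res r) := by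
  let φ : Algebra.adjoin ℂ S →+* O := (Algebra.adjoin ℂ S).val.toRingHom.codRestrict O.toSubring
    fun z => (ρ.adjoin_mem E hS z.2).1
  let _ := φ.toAlgebra
  have : IsScalarTower (Algebra.adjoin ℂ S) O K := .of_algebraMap_eq fun _ => rfl
  obtain ⟨y, rfl⟩ := IsIntegrallyClosed.isIntegral_iff.1 (hr.tower_top (A := O))
  exact ⟨y.2, ((isIntegral_algebraMap_iff Subtype.val_injective).1 hr).map_of_comp_eq
    ((ρ.hom.comp φ).codRestrict E.toSubring fun z => (ρ.adjoin_mem E hS z.2).2) ρ.hom rfl⟩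

end Rs

open scoped IntermediateField.algebraAdjoinAdjoin in
theorem trdeg_le {F1 : Type} [Field F1] [Algebra ℂ F1] {ν : ℕ} (u : Fin ν → F1) {S : Set F1}
    (h : ∀ z ∈ S, IsAlgebraic (IntermediateField.adjoin ℂ (Set.range u)) z) :
    Algebra.trdeg ℂ (IntermediateField.adjoin ℂ S) ≤ ν := by
  let E := IntermediateField.adjoin ℂ (Set.range u)
  have h1 : IntermediateField.adjoin ℂ S ≤ (algebraicClosure E F1).restrictScalars ℂ :=
    IntermediateField.adjoin_le_iff.2 fun z hz => mem_algebraicClosure_iff.2 (h z hz)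
  refine (trdeg_le_of_injective _ (IntermediateField.inclusion_injective h1)).trans ?_
  change Algebra.trdeg ℂ (algebraicClosure E F1) ≤ ν
  have : FaithfulSMul E (algebraicClosure E F1) :=
    (faithfulSMul_iff_algebraMap_injective _ _).2 (algebraMap E (algebraicClosure E F1)).injective
  have : FaithfulSMul ℂ (Algebra.adjoin ℂ (Set.range u)) :=
    (faithfulSMul_iff_algebraMap_injective _ _).2 (algebraMap ℂ _).injective
  have : FaithfulSMul (Algebra.adjoin ℂ (Set.range u)) E :=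
    (faithfulSMul_iff_algebraMap_injective _ _).2 (IsFractionRing.injective _ _)
  rw [← trdeg_add_eq ℂ E (A := algebraicClosure E F1), trdeg_eq_zero (R := E), add_zero,
    ← trdeg_add_eq ℂ (Algebra.adjoin ℂ (Set.range u)) (A := E),
    trdeg_eq_zero (R := Algebra.adjoin ℂ (Set.range u)), add_zero,
    Algebra.adjoin_range_eq_range_aeval]
  refine (trdeg_le_of_surjective _ (MvPolynomial.aeval u).rangeRestrict_surjective).trans ?_
  simp [MvPolynomial.trdeg_of_isDomain]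

variable {O : ValuationSubring K} {i₀ : ι}

theorem cen_le (hC : ∀ z : ℂ, algebraMap ℂ K z ∈ O) (hx : ∀ l, (x l : K) / x i₀ ∈ O) {r : K}
    (hr : r ∈ chart x i₀) : O.valuation r ≤ 1 := by
  refine Basic_le O.valuation (fun z => (O.valuation_le_one_iff _).2 (hC z)) x i₀ (fun j => ?_) r hr
  have := (O.valuation_le_one_iff _).2 (hx j)
  rwa [map_div₀, div_le_one₀ (Basic_pos _ _)] at this

omit [Algebra ℂ K] in
theorem cen_mono {u r : K} (hu : u ∈ O) {e : ℕ} (m : ℕ) (h : O.valuation (r * u ^ e) < 1) :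
    O.valuation (r * u ^ (e + m)) < 1 := by
  rw [pow_add, ← mul_assoc, map_mul]
  exact mul_lt_one_of_lt_of_le h ((O.valuation_le_one_iff _).2 (pow_mem hu m))

/-- The ideal sheaf of the centre. -/
def cen (hC : ∀ z : ℂ, algebraMap ℂ K z ∈ O) (hx : ∀ l, (x l : K) / x i₀ ∈ O) : Idl x where
  J i :=
    { carrier := {r | r ∈ chart x i ∧ ∃ e : ℕ, O.valuation (r * ((x i : K) / x i₀) ^ e) < 1}
      add_mem' := fun {a b} ⟨ha, e, he⟩ ⟨hb, e', he'⟩ => ⟨add_mem ha hb, e + e', by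
        rw [add_mul]
        exact O.valuation.map_add_lt (cen_mono (hx i) e' he)
          (add_comm e e' ▸ cen_mono (hx i) e he')⟩
      zero_mem' := ⟨zero_mem _, 0, by simp⟩
      smul_mem' := fun c a ⟨ha, e, he⟩ => ⟨Subalgebra.smul_mem _ ha c, e, by
        rw [Algebra.smul_def, mul_assoc, map_mul, mul_comm]
        exact mul_lt_one_of_lt_of_le he ((O.valuation_le_one_iff _).2 (hC c))⟩ }
  le := fun _ _ h => h.1
  mul := fun i s hs r ⟨hr, e, he⟩ => ⟨mul_mem hs hr, by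
    obtain ⟨e', he'⟩ := chart_trans x i i₀ hs
    refine ⟨e + e', ?_⟩
    rw [pow_add, mul_comm s, mul_mul_mul_comm, map_mul]
    exact mul_lt_one_of_lt_of_le he (cen_le hC hx he')⟩
  glue := fun i l r ⟨hr, e, he⟩ => by
    obtain ⟨e', he'⟩ := chart_trans x i l hr
    refine ⟨e + e', ?_, e + e', ?_⟩
    · rw [add_comm, pow_add, ← mul_assoc]
      exact mul_mem he' (pow_mem (Basic_mem x l i) e)
    · rw [mul_assoc, ← mul_pow, div_mul_div_cancel₀ (x l).ne_zero]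
      exact cen_mono (hx i) e' he

theorem exists_rd_cen {F1 : Type} [Field F1] [Algebra ℂ F1] (ρ : Rs O F1) (hc : Cart x g)
    (hx : ∀ l, (x l : K) / x i₀ ∈ O) :
    ∃ R : Rd x g (cen ρ.hC hx)
      (IntermediateField.adjoin ℂ (Set.range fun l => ρ.res ((x l : K) / x i₀))),
      R.i₀.1 = i₀ ∧ ∀ z ∈ R.O, z ∈ O ∧ (R.ρ z : F1) = ρ.res z := by
  set F := IntermediateField.adjoin ℂ (Set.range fun l => ρ.res ((x l : K) / x i₀)) with hF
  have hJ : ∀ i, (1 : K) ∈ (cen ρ.hC hx).J i ↔ ρ.res ((x i : K) / x i₀) = 0 := fun i => by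
    refine ⟨fun ⟨_, e, he⟩ => ?_, fun h => ⟨one_mem _, 1, ?_⟩⟩
    · by_contra h
      rw [one_mul, map_pow, ρ.val_eq (hx i) h, one_pow] at he
      exact lt_irrefl _ he
    · rw [one_mul, pow_one]
      exact (ρ.ker _ (hx i)).1 h
  have hF1 : ∀ l, ρ.res ((x l : K) / x i₀) ∈ F := fun l =>
    IntermediateField.subset_adjoin _ _ ⟨l, rfl⟩
  have hch : ∀ i, ρ.res ((x i : K) / x i₀) ≠ 0 → ∀ r ∈ chart x i, r ∈ O ∧ ρ.res r ∈ F :=
    fun i hi r hr => ρ.adjoin_mem F (by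
      rintro _ ⟨l, rfl⟩
      have h := ρ.res_div (hx l) (hx i) hi
      rw [div_div_div_cancel_right₀ (x i₀).ne_zero] at h
      exact ⟨h.1, h.2 ▸ div_mem (hF1 l) (hF1 i)⟩) hr
  have h0 : ρ.res ((x i₀ : K) / x i₀) = 1 := by rw [div_self (x i₀).ne_zero, ρ.one]
  have hg : ∀ i j, ρ.res ((x i : K) / x i₀) ≠ 0 → ρ.res ((x j : K) / x i₀) ≠ 0 →
      (g i : K) / g j ∈ O ∧ ρ.res ((g i : K) / g j) ∈ F := fun i j hi hj => by
    obtain ⟨e, he⟩ := hc i j
    have h1 := ρ.res_div (hx i) (hx j) hj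
    rw [div_div_div_cancel_right₀ (x i₀).ne_zero] at h1
    have h2 := ρ.res_div (hch j hj _ he).1 (pow_mem h1.1 e) (by
      rw [ρ.res_pow h1.1, h1.2]; exact pow_ne_zero _ (div_ne_zero hi hj))
    rw [mul_div_cancel_right₀ _ (pow_ne_zero _ (div_ne_zero (x i).ne_zero (x j).ne_zero))] at h2
    exact ⟨h2.1, h2.2 ▸ div_mem (hch j hj _ he).2
      (hch j hj _ (pow_mem (Basic_mem x j i) e)).2⟩
  have hg0 : ∀ i, ρ.res ((x i : K) / x i₀) ≠ 0 → ρ.res ((g i : K) / g i₀) ≠ 0 := fun i hi h => by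
    have := ρ.mul _ (hg i i₀ hi (h0 ▸ one_ne_zero)).1 _ (hg i₀ i (h0 ▸ one_ne_zero) hi).1
    rw [div_mul_div_cancel₀ (g i₀).ne_zero, div_self (g i).ne_zero, ρ.one, h, zero_mul] at this
    exact one_ne_zero this
  obtain ⟨π, hπ⟩ := F.val.toLinearMap.exists_leftInverse_of_injective
    (LinearMap.ker_eq_bot.2 Subtype.val_injective)
  have hπ' : ∀ y (hy : y ∈ F), π y = ⟨y, hy⟩ := fun y hy => LinearMap.congr_fun hπ ⟨y, hy⟩
  let A : Subalgebra ℂ K :=
    { carrier := {r | r ∈ O ∧ ρ.res r ∈ F}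
      mul_mem' := fun {a b} ha hb =>
        ⟨mul_mem ha.1 hb.1, ρ.mul a ha.1 b hb.1 ▸ mul_mem ha.2 hb.2⟩
      add_mem' := fun {a b} ha hb => ⟨add_mem ha.1 hb.1, map_add ρ.res a b ▸ add_mem ha.2 hb.2⟩
      algebraMap_mem' := fun c => ⟨ρ.hC c, ρ.res_c c ▸ F.algebraMap_mem c⟩ }
  have hA : ∀ z ∈ A, ((π ∘ₗ ρ.res) z : F1) = ρ.res z := fun z hz =>
    congrArg Subtype.val (hπ' _ hz.2)
  refine ⟨⟨⟨i₀, fun h => one_ne_zero (h0.symm.trans ((hJ i₀).1 h))⟩,
    fun i => Units.mk0 ⟨_, hF1 i⟩ fun h => i.2 ((hJ i).2 (congrArg Subtype.val h)),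
    fun i => Units.mk0 ⟨_, (hg i i₀ (fun h => i.2 ((hJ i).2 h)) (h0 ▸ one_ne_zero)).2⟩
      fun h => hg0 i (fun h => i.2 ((hJ i).2 h)) (congrArg Subtype.val h),
    A, π ∘ₗ ρ.res, Units.ext (Subtype.ext h0), ?_,
    Subtype.ext ((hA 1 (one_mem A)).trans ρ.one), fun a ha b hb => Subtype.ext ?_,
    fun r hr h => ?_, fun i r hr => hch i (fun h => i.2 ((hJ i).2 h)) r hr, fun i r hr => ?_,
    fun i => hπ' _ (hF1 i), fun i hi => ?_,
    fun i => hg i i₀ (fun h => i.2 ((hJ i).2 h)) (h0 ▸ one_ne_zero),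
    fun i => hπ' _ (hg i i₀ (fun h => i.2 ((hJ i).2 h)) (h0 ▸ one_ne_zero)).2⟩, rfl,
    fun z hz => ⟨hz.1, hA z hz⟩⟩
  · refine IntermediateField.lift_injective F ?_
    rw [IntermediateField.lift_adjoin, IntermediateField.lift_top]
    refine le_antisymm (IntermediateField.adjoin_le_iff.2 ?_)
      (IntermediateField.adjoin_le_iff.2 ?_)
    · rintro _ ⟨z, -, rfl⟩
      exact z.2
    · rintro _ ⟨l, rfl⟩
      by_cases hl : (1 : K) ∈ (cen ρ.hC hx).J l
      · simp only [(hJ l).1 hl]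
        exact zero_mem _
      · exact IntermediateField.subset_adjoin _ _ ⟨_, ⟨⟨l, hl⟩, rfl⟩, rfl⟩
  · rw [IntermediateField.coe_mul, hA _ (mul_mem ha hb), hA a ha, hA b hb, ρ.mul a ha.1 b hb.1]
  · have h1 := ρ.res_div (one_mem O) hr.1 fun h0 => h (Subtype.ext ((hA r hr).trans h0))
    rw [one_div, ρ.one] at h1
    exact ⟨h1.1, h1.2 ▸ div_mem (one_mem F) hr.2⟩
  · have hi : ρ.res ((x i : K) / x i₀) ≠ 0 := fun h => i.2 ((hJ i).2 h)
    have h1 := hch i hi r hr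
    refine ⟨fun h => ⟨hr, 0, ?_⟩, fun ⟨_, e, he⟩ => Subtype.ext ((hA r h1).trans ?_)⟩
    · rw [pow_zero, mul_one]
      exact (ρ.ker r h1.1).1 ((hA r h1).symm.trans (congrArg Subtype.val h))
    · rw [map_mul, map_pow, ρ.val_eq (hx i) hi, one_pow, mul_one] at he
      exact (ρ.ker r h1.1).2 he
  · rw [LinearMap.comp_apply, (hJ i).1 hi, map_zero]

end Pool.Agent.Lib.MP_bc213e_ag.KBD
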