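import Pool.Agent.Lib.MP_bc213e_ag.KBD.Untw
import Pool.Agent.Lib.MP_bc213e_ag.KBD.Cen
import Pool.Agent.Lib.MP_bc213e_ag.KBA.W
import Pool.Agent.Lib.MP_bc213e_ag.Hyp.Prime

/-! Descent from the base locus of the pencil to the variety. -/

namespace Pool.Agent.Lib.MP_bc213e_ag.KBD

open Pool.Agent.Lib.MP_bc213e_ag.Hyp Pool.Agent.Lib.MP_bc213e_ag.KBB Filter Module

variable {K ι : Type} [Field K] [Algebra ℂ K] {x g : ι → Kˣ} {O : ValuationSubring K}
  {F1 : Type} [Field F1] [Algebra ℂ F1]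

omit [Algebra ℂ K] in
theorem Rs.span_mem {k : Type} [Field k] [Algebra k K] (hk : ∀ a : k, algebraMap k K a ∈ O)
    {S : Set K} (hS : ∀ z ∈ S, z ∈ O) {z : K} (hz : z ∈ Submodule.span k S) : z ∈ O := by
  induction hz using Submodule.span_induction with
  | mem z hz => exact hS z hz
  | zero => exact zero_mem O
  | add a b _ _ ha hb => exact add_mem ha hb
  | smul c a _ ha => rw [Algebra.smul_def]; exact mul_mem (hk c) ha

/-- The algebra structure on the residue field over a subfield of the valuation ring. -/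
@[reducible] noncomputable def Rs.alg (ρ : Rs O F1) (k : Type) [Field k] [Algebra k K]
    (hk : ∀ a : k, algebraMap k K a ∈ O) : Algebra k F1 :=
  (ρ.hom.comp ((algebraMap k K).codRestrict O.toSubring hk)).toAlgebra

theorem Rs.tower (ρ : Rs O F1) (k : Type) [Field k] [Algebra k K] [Algebra ℂ k]
    [IsScalarTower ℂ k K] [Algebra k F1] (h : ∀ a : k, algebraMap k F1 a = ρ.res (algebraMap k K a)) :
    IsScalarTower ℂ k F1 :=
  .of_algebraMap_eq fun c => by rw [h, ← IsScalarTower.algebraMap_apply, ρ.res_c]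

/-- The residue map on a subspace over a subfield of the valuation ring. -/
noncomputable def Rs.lin (ρ : Rs O F1) {k : Type} [Field k] [Algebra k K] [Algebra k F1]
    (hk : ∀ a : k, algebraMap k K a ∈ O)
    (h : ∀ a : k, algebraMap k F1 a = ρ.res (algebraMap k K a)) (V : Submodule k K)
    (hV : ∀ z ∈ V, z ∈ O) : V →ₗ[k] F1 where
  toFun z := ρ.res z
  map_add' a b := map_add ρ.res a.1 b.1
  map_smul' c a := by
    rw [RingHom.id_apply, Algebra.smul_def c (ρ.res _), h, ← ρ.mul _ (hk c) _ (hV _ a.2),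
      Submodule.coe_smul, Algebra.smul_def]

theorem finrank_span_le {k : Type} [Field k] [Algebra ℂ k] [Algebra k F1] [IsScalarTower ℂ k F1]
    (U : Submodule ℂ F1) [FiniteDimensional ℂ U] :
    FiniteDimensional k (Submodule.span k (U : Set F1)) ∧
      finrank k (Submodule.span k (U : Set F1)) ≤ finrank ℂ U := by
  let b := finBasis ℂ U
  have h : Submodule.span k (U : Set F1) = Submodule.span k (Set.range fun i => (b i : F1)) := by
    refine le_antisymm (Submodule.span_le.2 fun z hz => ?_)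
      (Submodule.span_mono (by rintro _ ⟨i, rfl⟩; exact (b i).2))
    have e := congrArg Subtype.val (b.sum_repr ⟨z, hz⟩)
    simp only [Submodule.coe_sum, Submodule.coe_smul] at e
    rw [← e]
    exact Submodule.sum_mem _ fun i _ =>
      Submodule.smul_of_tower_mem _ _ (Submodule.subset_span ⟨i, rfl⟩)
  rw [h]
  exact ⟨.span_of_finite k (Set.finite_range _), by
    simpa [Set.finrank] using finrank_range_le_card (R := k) fun i => (b i : F1)⟩

theorem growth_le (ρ : Rs O F1) {k : Type} [Field k] [Algebra ℂ k] [Algebra k K]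
    [IsScalarTower ℂ k K] (hk : ∀ a : k, algebraMap k K a ∈ O) {S : Set K} (U : Submodule ℂ F1)
    [FiniteDimensional ℂ U] (hS : ∀ z ∈ S, z ∈ O ∧ ρ.res z ∈ U) {G G' : Submodule k K}
    (hG : G ≤ Submodule.span k S) (hG' : ∀ z ∈ G, O.valuation z < 1 → z ∈ G')
    [FiniteDimensional k G'] : finrank k G ≤ finrank k G' + finrank ℂ U := by
  by_cases hfd : FiniteDimensional k G
  swap
  · rw [finrank_of_not_finite hfd]; exact Nat.zero_le _
  let _ := ρ.alg k hk
  have := ρ.tower k fun _ => rfl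
  have hO : ∀ z ∈ Submodule.span k S, z ∈ O := fun z hz =>
    Rs.span_mem hk (fun z hz => (hS z hz).1) hz
  let r := ρ.lin hk (fun _ => rfl) G fun z hz => hO z (hG hz)
  obtain ⟨h1, h2⟩ := finrank_span_le (k := k) U
  have h3 : LinearMap.range r ≤ Submodule.span k (U : Set F1) := by
    rintro _ ⟨⟨z, hz⟩, rfl⟩
    have hz' := hG hz
    change ρ.res z ∈ _
    clear hz
    induction hz' using Submodule.span_induction with
    | mem z hz => exact Submodule.subset_span (hS z hz).2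
    | zero => rw [map_zero]; exact zero_mem _
    | add a b _ _ ha hb => rw [map_add]; exact add_mem ha hb
    | smul c a ha' ha =>
      rw [Algebra.smul_def, ρ.mul _ (hk c) _ (hO _ ha')]
      exact Submodule.smul_mem _ c ha
  have h4 : finrank k (LinearMap.ker r) ≤ finrank k G' := by
    rw [← Submodule.finrank_map_subtype_eq]
    refine Submodule.finrank_mono ?_
    rintro _ ⟨z, hz, rfl⟩
    exact hG' _ z.2 ((ρ.ker _ (hO _ (hG z.2))).1 hz)
  have h5 := r.finrank_range_add_finrank_ker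
  have h6 := Submodule.finrank_mono h3
  omega

theorem g5_count {ν c m : ℕ} (hc : 0 < c) (a : Fin m → ℕ) {ε : ℚ} (hε : 0 < ε) (h : ℕ → ℕ)
    (H : ∃ᶠ b : ℕ in atTop, ε * ((b : ℚ) + 1) ^ ν ≤ ∑ i, (h ((b + a i) * c) : ℚ)) :
    ∃ δ : ℚ, 0 < δ ∧ ∃ᶠ t : ℕ in atTop, δ * (t : ℚ) ^ ν ≤ h t := by
  have hc' : (0 : ℚ) < c := by exact_mod_cast hc
  refine ⟨ε / ((m + 1) * (2 * c) ^ ν), by positivity, frequently_atTop.2 fun t₀ => ?_⟩
  obtain ⟨b, hb, H⟩ := frequently_atTop.1 H (t₀ + Finset.univ.sup a)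
  by_contra hne
  push Not at hne
  have h1 : ∀ i, (h ((b + a i) * c) : ℚ) ≤ ε / (m + 1) * ((b : ℚ) + 1) ^ ν := fun i => by
    have h2 : a i ≤ b := (Finset.le_sup (f := a) (Finset.mem_univ i)).trans (by omega)
    refine (hne _ (le_trans (by omega) (Nat.le_mul_of_pos_right _ hc))).le.trans ?_
    have h3 : (((b + a i) * c : ℕ) : ℚ) ^ ν ≤ (2 * c) ^ ν * ((b : ℚ) + 1) ^ ν := by
      rw [← mul_pow]
      have h4 : (a i : ℚ) ≤ b := by exact_mod_cast h2
      gcongr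
      push_cast
      nlinarith
    refine (mul_le_mul_of_nonneg_left h3 (by positivity)).trans_eq ?_
    field_simp
  have h2 := H.trans (Finset.sum_le_sum fun i _ => h1 i)
  rw [Finset.sum_const, Finset.card_univ, Fintype.card_fin, nsmul_eq_mul, ← mul_assoc,
    mul_le_mul_iff_left₀ (by positivity), mul_div_assoc', le_div_iff₀ (by positivity)] at h2
  nlinarith

theorem g5_desc [Fintype ι] (frac : ∀ i, IsFractionRing (chart x i) K)
    (norm : ∀ i, IsIntegrallyClosed (chart x i)) (hc : Cart x g) (hn : Nef x g) (ρ : Rs O F1)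
    {J : Idl x} {F : IntermediateField ℂ F1} (R : Rd x g J F)
    (hR : ∀ z ∈ R.O, z ∈ O ∧ (R.ρ z : F1) = ρ.res z)
    (KK : IntermediateField ℂ K) (hKO : ∀ z ∈ KK, z ∈ O) (hKK : ∀ e : K, IsAlgebraic KK e → e ∈ KK)
    {lam : K} {c : ℕ} (hlam : O.valuation lam = O.valuation ((g R.i₀ : K) ^ c))
    (fd : ∃ᶠ j : ℕ in atTop, FiniteDimensional KK (Submodule.span KK
      {z | ∃ (a : ℕ) (s : K), Sec x g ((a * c : ℕ) : ℤ) j s ∧ z = s / lam ^ a})) :
    ∃ (m : ℕ) (a : Fin m → ℕ), ∀ b : ℕ, finrank ℂ (SecS R.x' R.g' ((b * c : ℕ) : ℤ) 0) ≤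
      ∑ i, finrank ℂ (SecS x g (((b + a i) * c : ℕ) : ℤ) 0) := by
  obtain ⟨a₁, hl⟩ := lift_sec hc hn R
  obtain ⟨j, fd, hj⟩ := (fd.and_eventually (eventually_ge_atTop a₁)).exists
  have hk : ∀ a : KK, algebraMap KK K a ∈ O := fun a => hKO _ a.2
  let _ := ρ.alg KK hk
  have := ρ.tower KK fun _ => rfl
  have : CharZero KK := algebraRat.charZero KK
  have hg0 : (g R.i₀ : K) ^ c ≠ 0 := pow_ne_zero _ (Units.ne_zero _)
  have hl0 : lam ≠ 0 := fun h => by
    rw [h, map_zero] at hlam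
    exact hg0 ((map_eq_zero _).1 hlam.symm)
  obtain ⟨hu, hu0⟩ := ρ.res_ne (a := (g R.i₀ : K) ^ c / lam) (by
    rw [map_div₀, hlam, div_self ((map_ne_zero _).2 hg0)])
  let T : Set K := {z | ∃ (a : ℕ) (s : K), Sec x g ((a * c : ℕ) : ℤ) j s ∧
    z = s / lam ^ a / (x R.i₀ : K) ^ j}
  have hT : ∀ (a : ℕ) (s : K), s / lam ^ a / (x R.i₀ : K) ^ j =
      s / fr x g ((a * c : ℕ) : ℤ) j R.i₀ * ((g R.i₀ : K) ^ c / lam) ^ a := fun a s => by
    have h1 : (g R.i₀ : K) ≠ 0 := Units.ne_zero _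
    have h2 : (x R.i₀ : K) ≠ 0 := Units.ne_zero _
    rw [fr, zpow_natCast, div_pow, ← pow_mul, mul_comm c a]
    field_simp
  have hfd : FiniteDimensional KK (Submodule.span KK T) := by
    refine Submodule.finiteDimensional_of_le (S₂ := (Submodule.span KK {z | ∃ (a : ℕ) (s : K),
      Sec x g ((a * c : ℕ) : ℤ) j s ∧ z = s / lam ^ a}).map
        (LinearMap.mulRight KK ((x R.i₀ : K) ^ j)⁻¹)) (Submodule.span_le.2 ?_)
    rintro _ ⟨a, s, hs, rfl⟩
    exact ⟨_, Submodule.subset_span ⟨a, s, hs, rfl⟩, (div_eq_mul_inv _ _).symm⟩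
  have hTO : ∀ z ∈ Submodule.span KK T, z ∈ O := fun z hz => Rs.span_mem hk (by
    rintro _ ⟨a, s, hs, rfl⟩
    rw [hT]
    exact mul_mem (hR _ (R.le _ _ (hs R.i₀))).1 (pow_mem hu a)) hz
  let ψ : ℕ → F →ₗ[ℂ] F1 := fun a =>
    LinearMap.mulRight ℂ (ρ.res ((g R.i₀ : K) ^ c / lam) ^ a) ∘ₗ F.val.toLinearMap
  have hψ : ∀ a y, ψ a y = y * ρ.res ((g R.i₀ : K) ^ c / lam) ^ a := fun _ _ => rfl
  have := fun b : ℕ => secS_fd hc hn R.i₀ (b * c) 0
  obtain ⟨m, a, h⟩ := KBA.descent_finrank (k := ℂ) (F := KK) (K := K) (F1 := F1)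
    (J := {p : ι × Val K // PrimeDiv (chart x p.1) p.2}) (fun e he => ⟨⟨e, hKK e he⟩, rfl⟩)
    (fun p => p.1.2) (fun p D => KBA.der_bound p.2 D) (fun p => lam / (g p.1.1 : K) ^ c)
    (Submodule.span KK T) (ρ.lin hk (fun _ => rfl) _ hTO) one_ne_zero
    (fun a => (SecS R.x' R.g' ((a * c : ℕ) : ℤ) 0).map (ψ a))
    ⟨1, by rw [zero_mul]; exact sec_one R.x' R.g', by simp [hψ]⟩
    (by
      rintro a b _ ⟨y, hy, rfl⟩ _ ⟨z, hz, rfl⟩
      refine ⟨y * z, ?_, ?_⟩
      · have := sec_mul (show Sec _ _ _ _ y from hy) (show Sec _ _ _ _ z from hz)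
        rwa [← Nat.cast_add, ← add_mul] at this
      · rw [hψ, hψ, hψ, pow_add, IntermediateField.coe_mul, mul_mul_mul_comm])
    (fun p => p.1.2 (((x p.1.1 : K) / x R.i₀) ^ j))
    (by
      rintro a _ ⟨y, hy, rfl⟩
      have hy' := secS_mono R.one _ 0 j hy
      rw [zero_add] at hy'
      obtain ⟨s, hs, e⟩ := hl (a * c) j hj y hy'
      refine ⟨⟨_, Submodule.subset_span ⟨a, s, hs, rfl⟩⟩, ?_, fun p => ?_⟩
      · obtain ⟨h1, h2⟩ := hR _ (R.le _ _ (sec_iff_fr.1 hs R.i₀))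
        change ρ.res (s / lam ^ a / (x R.i₀ : K) ^ j) = _
        rw [hT, ρ.mul _ h1 _ (pow_mem hu a), ρ.res_pow hu, mul_one, hψ, ← e]
        exact congrArg (· * _) h2.symm
      · have e1 : (lam / (g p.1.1 : K) ^ c) ^ a * (s / lam ^ a / (x R.i₀ : K) ^ j) =
            s / fr x g ((a * c : ℕ) : ℤ) j p.1.1 * ((x p.1.1 : K) / x R.i₀) ^ j := by
          have h1 : (g p.1.1 : K) ≠ 0 := Units.ne_zero _
          have h2 : (x R.i₀ : K) ≠ 0 := Units.ne_zero _
          have h3 : (x p.1.1 : K) ≠ 0 := Units.ne_zero _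
          rw [fr, zpow_natCast, div_pow, div_pow, ← pow_mul, mul_comm c a]
          field_simp
        change p.1.2 (_ * (s / lam ^ a / (x R.i₀ : K) ^ j)) ≤ _
        rw [e1, map_mul]
        exact mul_le_of_le_one_left' (p.2.2.1 _ (hs p.1.1)))
    hl0 (fun b => SecS x g ((b * c : ℕ) : ℤ) 0)
    (fun b t ht i => by
      have := chart_noeth x i
      have := frac i
      have := norm i
      refine hartogs fun w hw => ?_
      have h1 := ht ⟨(i, w), hw⟩
      rwa [div_pow, ← pow_mul, mul_comm c b, div_mul_eq_mul_div, ← zpow_natCast (g i : K),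
        ← mul_one ((g i : K) ^ _), ← pow_zero (x i : K)] at h1)
  refine ⟨m, a, fun b => le_trans ?_ (h b).2⟩
  refine (Submodule.equivMapOfInjective (ψ b) (fun y z e => Subtype.ext ?_) _).finrank_eq.le
  exact mul_right_cancel₀ (pow_ne_zero b hu0) e

/-- `O` is the valuation ring of a place of positive weight over the hyperplane at infinity, `KK`
the field of vertical functions, `lam` a vertical section of `c L`. -/
theorem g5 {k : Type} [Fintype ι] [Field k] [Algebra ℂ k] [Algebra k K] [IsScalarTower ℂ k K]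
    (frac : ∀ i, IsFractionRing (chart x i) K) (norm : ∀ i, IsIntegrallyClosed (chart x i))
    (hc : Cart x g) (hn : Nef x g)
    (O : ValuationSubring K) (i₀ : ι) (hx : ∀ l, (x l : K) / x i₀ ∈ O)
    (hk : ∀ a : k, algebraMap k K a ∈ O)
    (KK : IntermediateField ℂ K) (hKO : ∀ z ∈ KK, z ∈ O)
    (hKK : ∀ e : K, IsAlgebraic KK e → e ∈ KK)
    {lam : K} {c : ℕ} (hc0 : 0 < c) (hlam : O.valuation lam = O.valuation ((g i₀ : K) ^ c))
    (fd : ∃ᶠ j : ℕ in atTop, FiniteDimensional KK (Submodule.span KK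
      {z | ∃ (a : ℕ) (s : K), Sec x g ((a * c : ℕ) : ℤ) j s ∧ z = s / lam ^ a}))
    {ν : ℕ} {η : K} (u : Fin ν → K) (S0 : Set K) (h0 : η ≠ 0) (hη : η / x i₀ ∈ O)
    (hu : ∀ a, u a ∈ O) (hS0 : ∀ z ∈ S0, O.valuation z < 1)
    (hint : ∀ l, IsIntegral (Algebra.adjoin ℂ (Set.range u ∪ S0)) ((x l : K) / η))
    {j : ℕ} {ε : ℚ} (hε : 0 < ε)
    (growth : ∃ᶠ b : ℕ in atTop, ∃ G G' : Submodule k K,
      G ≤ Submodule.span k {z | ∃ s, Sec x g b j s ∧ z = s / fr x g b j i₀} ∧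
      (∀ z ∈ G, O.valuation z < 1 → z ∈ G') ∧ FiniteDimensional k G' ∧
      ε * ((b : ℚ) + 1) ^ ν + finrank k G' ≤ finrank k G) :
    ∃ δ : ℚ, 0 < δ ∧ ∃ᶠ t : ℕ in atTop, δ * (t : ℚ) ^ ν ≤ finrank ℂ (SecS x g t 0) := by
  classical
  obtain ⟨F1, _, _, ⟨ρ⟩⟩ := exists_rs O fun z => hKO _ (KK.algebraMap_mem z)
  obtain ⟨R, hi, hR⟩ := exists_rd_cen ρ hc hx
  have hdim : Algebra.trdeg ℂ (IntermediateField.adjoin ℂ
      (Set.range fun l => ρ.res ((x l : K) / x i₀))) ≤ ν := by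
    refine trdeg_le (fun a => ρ.res (u a)) ?_
    rintro _ ⟨l, rfl⟩
    have h1 := fun l => ρ.integral (IntermediateField.adjoin ℂ (Set.range fun a => ρ.res (u a)))
      (by
        rintro z (⟨a, rfl⟩ | hz)
        · exact ⟨hu a, IntermediateField.subset_adjoin _ _ ⟨a, rfl⟩⟩
        · have h2 := (O.valuation_le_one_iff z).1 (hS0 z hz).le
          exact ⟨h2, (ρ.ker z h2).2 (hS0 z hz) ▸ zero_mem _⟩) (hint l)
    have h3 := ρ.mul _ (h1 i₀).1 _ hη
    rw [div_mul_div_cancel₀ h0, div_self (x i₀).ne_zero, ρ.one] at h3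
    have h4 := (ρ.res_div (h1 l).1 (h1 i₀).1 (left_ne_zero_of_mul_eq_one h3.symm)).2
    rw [div_div_div_cancel_right₀ h0] at h4
    simp only [h4, div_eq_mul_inv (ρ.res _)]
    exact (h1 l).2.isAlgebraic.mul (h1 i₀).2.isAlgebraic.inv
  obtain ⟨m, a, h⟩ := g5_desc frac norm hc hn ρ R hR KK hKO hKK (hi.symm ▸ hlam) fd
  have hε2 : 0 < ε / 2 := half_pos hε
  refine g5_count hc0 a hε2 (fun t => finrank ℂ (SecS x g t 0)) ((growth.and_eventually
    (untwist (R.cart hc) (R.nef hn) R.one R.gen hdim j hε2)).mono ?_)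
  rintro b ⟨⟨G, G', h1, h2, h3, h4⟩, h5⟩
  have := secS_fd (R.cart hc) (R.nef hn) R.i₀ b j
  have h6 := growth_le ρ hk ((SecS R.x' R.g' b j).map (IntermediateField.val _).toLinearMap) (by
    rintro _ ⟨s, hs, rfl⟩
    obtain ⟨h7, h8⟩ := hR _ (R.le R.i₀ _ (sec_iff_fr.1 hs R.i₀))
    have h9 := R.res2_sec hs
    rw [← congrArg (fr x g b j) hi]
    exact ⟨h7, _, h9, h8⟩) h1 h2
  have h7 := h6.trans (Nat.add_le_add_left (Submodule.finrank_map_le _ _) _)
  have h8 := (finrank_le_mul (R.cart hc) (R.nef hn) R.i₀ hc0 b).trans (h b)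
  have h9 : (finrank k G : ℚ) ≤ finrank k G' + finrank ℂ (SecS R.x' R.g' b j) := by
    exact_mod_cast h7
  have h10 : (finrank ℂ (SecS R.x' R.g' b 0) : ℚ) ≤
      ∑ i, (finrank ℂ (SecS x g (((b + a i) * c : ℕ) : ℤ) 0) : ℚ) := by exact_mod_cast h8
  linarith

theorem integral_of_Bd {n : ℕ} {ξ : Fin (n + 1) → K} (h0 : ξ 0 ≠ 0) {a : Fin (n + 1)}
    (ha : ξ a ≠ 0) {z : K} (hz : z / ξ 0 ∈ Bd (fun l : Fin n => ξ l.succ / ξ 0) 1) {S : Set K}
    (hS : ∀ l, l ≠ a → ξ l / ξ a ∈ S) : IsIntegral (Algebra.adjoin ℂ S) (z / ξ a) := by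
  have h1 : z / ξ a ∈ (integralClosure (Subring.closure
      ((Algebra.adjoin ℂ S).toSubring : Set K)) K).toSubring := by
    rw [← iInf_valuationSubring_superset, Subring.mem_iInf]
    rintro ⟨O, hO⟩
    have h2 : ∀ l, ξ l / ξ a ∈ O := fun l => by
      by_cases h : l = a
      · rw [h, div_self ha]; exact one_mem O
      · exact hO (Algebra.subset_adjoin (hS l h))
    have h3 := hz O (ξ a / ξ 0) (fun c => hO (Subalgebra.algebraMap_mem _ c)) (div_ne_zero ha h0)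
      (by rw [inv_div]; exact h2 0) fun l => by
        rw [div_div_div_cancel_right₀ h0]; exact h2 _
    rwa [pow_one, div_div_div_cancel_right₀ h0] at h3
  rw [Subring.closure_eq] at h1
  exact h1

/-- The same with a system of parameters `ξ`. -/
theorem g5_sop {k : Type} [Fintype ι] [Field k] [Algebra ℂ k] [Algebra k K] [IsScalarTower ℂ k K]
    (frac : ∀ i, IsFractionRing (chart x i) K) (norm : ∀ i, IsIntegrallyClosed (chart x i))
    (hc : Cart x g) (hn : Nef x g)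
    (O : ValuationSubring K) (i₀ : ι) (hx : ∀ l, (x l : K) / x i₀ ∈ O)
    (hk : ∀ a : k, algebraMap k K a ∈ O)
    (KK : IntermediateField ℂ K) (hKO : ∀ z ∈ KK, z ∈ O)
    (hKK : ∀ e : K, IsAlgebraic KK e → e ∈ KK)
    {lam : K} {c : ℕ} (hc0 : 0 < c) (hlam : O.valuation lam = O.valuation ((g i₀ : K) ^ c))
    (fd : ∃ᶠ j : ℕ in atTop, FiniteDimensional KK (Submodule.span KK
      {z | ∃ (a : ℕ) (s : K), Sec x g ((a * c : ℕ) : ℤ) j s ∧ z = s / lam ^ a}))
    {ν : ℕ} {ξ : Fin (ν + 3) → K} (ne : ∀ l, ξ l ≠ 0)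
    (mem : ξ 2 ∈ Submodule.span ℂ (Set.range fun i => (x i : K)))
    (bd : ∀ i, (x i : K) / ξ 0 ∈ Bd (fun l : Fin (ν + 2) => ξ l.succ / ξ 0) 1)
    (h0 : O.valuation (ξ 0 / ξ 2) < 1) (h1 : O.valuation (ξ 1 / ξ 2) < 1)
    (h3 : ∀ l, ξ l / ξ 2 ∈ O) {j : ℕ} {ε : ℚ} (hε : 0 < ε)
    (growth : ∃ᶠ b : ℕ in atTop, ∃ G G' : Submodule k K,
      G ≤ Submodule.span k {z | ∃ s, Sec x g b j s ∧ z = s / fr x g b j i₀} ∧
      (∀ z ∈ G, O.valuation z < 1 → z ∈ G') ∧ FiniteDimensional k G' ∧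
      ε * ((b : ℚ) + 1) ^ ν + finrank k G' ≤ finrank k G) :
    ∃ δ : ℚ, 0 < δ ∧ ∃ᶠ t : ℕ in atTop, δ * (t : ℚ) ^ ν ≤ finrank ℂ (SecS x g t 0) := by
  refine g5 frac norm hc hn O i₀ hx hk KK hKO hKK hc0 hlam fd
    (fun a : Fin ν => ξ a.succ.succ.succ / ξ 2) {ξ 0 / ξ 2, ξ 1 / ξ 2} (ne 2) ?_ (fun a => h3 _)
    (by rintro _ (rfl | rfl); exacts [h0, h1])
    (fun i => integral_of_Bd (ne 0) (ne 2) (bd i) fun l => ?_) hε growth
  · generalize ξ 2 = z at mem
    induction mem using Submodule.span_induction with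
    | mem z hz => obtain ⟨l, rfl⟩ := hz; exact hx l
    | zero => rw [zero_div]; exact zero_mem O
    | add a b _ _ ha hb => rw [add_div]; exact add_mem ha hb
    | smul c a _ ha =>
      rw [Algebra.smul_def, mul_div_assoc]
      exact mul_mem (hKO _ (KK.algebraMap_mem c)) ha
  · refine Fin.cases (fun _ => Or.inr (Or.inl rfl)) (fun l => ?_) l
    refine Fin.cases (fun _ => Or.inr (Or.inr rfl)) (fun l => ?_) l
    exact Fin.cases (fun h => absurd rfl h) (fun l _ => Or.inl ⟨l, rfl⟩) l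

end Pool.Agent.Lib.MP_bc213e_ag.KBD
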