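import Pool.Agent.Lib.MP_bc213e_ag.KBD.G5
import Pool.Agent.Lib.MP_bc213e_ag.KBG.G1
import Pool.Agent.Lib.MP_bc213e_ag.KBV.Vd

/-! From the output of the virtual curve to sections of the multiples of `L`. -/

namespace Pool.Agent.Lib.MP_bc213e_ag.KBD

open Hyp KBB KBG KBV Filter Module

/-- The valuation ring of a rational valuation. -/
def qO {K : Type} [Field K] (W : QVal K) : ValuationSubring K where
  toSubring := W.O
  mem_or_inv_mem' z := by
    rcases le_total 0 (W.ord z) with h | h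
    · exact Or.inl (QVal.Ge.of_le h)
    · exact Or.inr (QVal.Ge.of_le (by rw [QVal.ord_inv]; linarith))

section val

variable {K : Type} [Field K] {W : QVal K}

theorem mem_qO {z : K} : z ∈ qO W ↔ W.Ge z 0 := Iff.rfl

theorem qO_lt_one {z : K} : (qO W).valuation z < 1 ↔ W.Gt z 0 := by
  by_cases h : z = 0
  · simp [h]
  have h1 : (qO W).valuation z ≠ 0 := (Valuation.ne_zero_iff _).2 h
  rw [← not_le, ← inv_le_one₀ (zero_lt_iff.2 h1), ← map_inv₀, ValuationSubring.valuation_le_one_iff,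
    mem_qO, QVal.ge_iff (inv_ne_zero h), QVal.gt_iff h, QVal.ord_inv, not_le, neg_lt_zero]

theorem qO_eq {a b : K} (ha : a ≠ 0) (hb : b ≠ 0) (h : W.ord a = W.ord b) :
    (qO W).valuation a = (qO W).valuation b := by
  have key : ∀ {a b : K}, a ≠ 0 → b ≠ 0 → W.ord a = W.ord b →
      (qO W).valuation a ≤ (qO W).valuation b := fun {a b} ha hb h => by
    rw [← div_le_one₀ (zero_lt_iff.2 ((Valuation.ne_zero_iff _).2 hb)), ← map_div₀,
      ValuationSubring.valuation_le_one_iff, mem_qO, QVal.ge_iff (div_ne_zero ha hb),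
      W.ord_div ha hb, h, sub_self]
  exact le_antisymm (key ha hb h) (key hb ha h.symm)

end val

variable {K ι k F₀ Ω : Type} [Field K] [Algebra ℂ K] [Field k] [Algebra ℂ k] [Algebra k K]
  [IsScalarTower ℂ k K] [Field F₀] [Field Ω] [Algebra k F₀] [Algebra F₀ Ω] [Algebra k Ω]
  [IsScalarTower k F₀ Ω] [Algebra K Ω] [IsScalarTower k K Ω]

/-- The vertical functions as a subfield of `K`. -/
noncomputable def vert (K : Type) [Field K] [Algebra ℂ K] [Algebra k K] [IsScalarTower ℂ k K] [Algebra K Ω]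
    [IsScalarTower k K Ω] (KK : IntermediateField k Ω) : IntermediateField ℂ K :=
  (KK.toSubfield.comap (algebraMap K Ω)).toIntermediateField fun c => by
    rw [Subfield.mem_comap, IsScalarTower.algebraMap_apply ℂ k K,
      ← IsScalarTower.algebraMap_apply k K Ω]
    exact KK.algebraMap_mem _

theorem mem_vert {KK : IntermediateField k Ω} {z : K} :
    z ∈ vert K KK ↔ algebraMap K Ω z ∈ KK := Iff.rfl

theorem vert_alg {KK : IntermediateField k Ω} {e : K} (h : IsAlgebraic (vert K KK) e) :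
    IsAlgebraic KK (algebraMap K Ω e) := by
  let f : vert K KK →+* KK :=
    ((algebraMap K Ω).comp (vert K KK).val.toRingHom).codRestrict KK fun z => z.2
  exact h.ringHom_of_comp_eq f (algebraMap K Ω) f.injective rfl

theorem vert_fd {KK : IntermediateField k Ω} (hle : ∀ z ∈ KK, z ∈ Set.range (algebraMap K Ω))
    {T : Set Ω} [FiniteDimensional KK (Submodule.span KK T)] {S : Set K} {d : K} (hd : d ≠ 0)
    (h : ∀ z ∈ S, algebraMap K Ω (z * d) ∈ T) :
    FiniteDimensional (vert K KK) (Submodule.span (vert K KK) S) := by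
  obtain ⟨T', hT⟩ := (Submodule.fg_iff_finiteDimensional (Submodule.span KK T)).2 inferInstance
  have h1 : ∀ y ∈ Submodule.span KK (T' : Set Ω), y ∈ Submodule.span (vert K KK) (T' : Set Ω) := by
    intro y hy
    induction hy using Submodule.span_induction with
    | mem y hy => exact Submodule.subset_span hy
    | zero => exact zero_mem _
    | add y z _ _ hy hz => exact add_mem hy hz
    | smul c y _ hy =>
      obtain ⟨c', hc⟩ := hle c c.2
      have := Submodule.smul_mem _ (⟨c', mem_vert.2 (hc ▸ c.2)⟩ : vert K KK) hy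
      rwa [Algebra.smul_def, IsScalarTower.algebraMap_apply (vert K KK) K Ω,
        show algebraMap (vert K KK) K ⟨c', mem_vert.2 (hc ▸ c.2)⟩ = c' from rfl, hc] at this
  let ψ : K →ₗ[vert K KK] Ω :=
    (IsScalarTower.toAlgHom (vert K KK) K Ω).toLinearMap ∘ₗ LinearMap.mulRight _ d
  refine (fin_of_inj (Y := Submodule.span (vert K KK) (T' : Set Ω)) ψ ?_ fun z _ hz => ?_).1
  · refine (Submodule.span_le (s := S) (p := (Submodule.span (vert K KK) (T' : Set Ω)).comap ψ)).2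
      fun z hz => h1 (ψ z) ?_
    rw [hT]
    exact Submodule.subset_span (h z hz)
  · have h2 : algebraMap K Ω (z * d) = 0 := hz
    simpa [hd] using h2

variable {x g : ι → Kˣ} {s : ℕ} {ξ : Fin (s + 3) → K} {Θ : K}

theorem sop_Bd (S : Sop x ξ Θ) {z : K} (hz : z ∈ VV x) :
    z / ξ (Fin.succ (Fin.succ 0)) ∈ Bd (Subtype.val : ↥(Set.range (fun a : Fin s =>
      ξ a.succ.succ.succ / ξ (Fin.succ (Fin.succ 0))) ∪
        {ξ 0 / ξ (Fin.succ (Fin.succ 0)), ξ (Fin.succ 0) / ξ (Fin.succ (Fin.succ 0))}) → K) 1 := by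
  intro O c h1 h2 h3 h4
  have n0 := S.ne 0
  have n2 := S.ne (Fin.succ (Fin.succ 0))
  have e : ∀ r : K, r / ξ 0 / (c * (ξ (Fin.succ (Fin.succ 0)) / ξ 0)) =
      r / ξ (Fin.succ (Fin.succ 0)) / c := fun r => by field_simp
  have h5 := S.bd z hz O (c * (ξ (Fin.succ (Fin.succ 0)) / ξ 0)) h1
    (mul_ne_zero h2 (div_ne_zero n2 n0)) ?_ fun l => ?_
  · rwa [pow_one, e, ← pow_one c] at h5
  · have h6 := h4 ⟨_, Or.inr (Or.inl rfl)⟩
    rwa [← e, div_self n0, one_div] at h6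
  · rw [yy, e]
    refine Fin.cases (h4 ⟨_, Or.inr (Or.inr rfl)⟩) (fun l => ?_) l
    refine Fin.cases ?_ (fun a => h4 ⟨_, Or.inl ⟨a, rfl⟩⟩) l
    rwa [div_self n2, one_div]

theorem vv_ge (W : QVal K) (hW : ∀ c : ℂ, W.Ge (algebraMap ℂ K c) 0) {i : ι}
    (hi : ∀ l, W.ord (x i) ≤ W.ord (x l)) {z : K} (hz : z ∈ VV x) : W.Ge z (W.ord (x i)) := by
  induction hz using Submodule.span_induction with
  | mem z hz =>
    obtain ⟨l, rfl⟩ := hz
    exact .of_le (hi l)
  | zero => exact W.ge_zero _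
  | add y z _ _ hy hz => exact hy.add hz
  | smul c y _ hy =>
    rw [Algebra.smul_def]
    exact (hW c).mul₀ hy

theorem out_main [Fintype ι] (frac : ∀ i, IsFractionRing (chart x i) K)
    (norm : ∀ i, IsIntegrallyClosed (chart x i)) (hc : Cart x g) (hn : Nef x g) (S : Sop x ξ Θ)
    {t : k} (ht : algebraMap k K t = yy ξ 0) {B : Base k F₀ Ω} {K' : IntermediateField F₀ Ω}
    (hK : ∀ z, z ∈ K' ↔ z ∈ Set.range (algebraMap K Ω)) {L : B.Dv} {M : ℕ → ℕ → Submodule k Ω}
    (hM : ∀ j b : ℕ, M j b ≤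
      Submodule.span k {z | ∃ r, Sec x g b j r ∧ z = algebraMap K Ω (r / ξ 0 ^ j)})
    (tame : ∀ j, Tame s (M j))
    (sec : ∀ (b j : ℕ) (r : K), Sec x g b j r →
      algebraMap K Ω (r / ξ 0 ^ j) ∈ B.Γ K' (j • B.H + b • L))
    (hL : ∀ v : B.P, ∃ i, (∀ l, v.1.ord (algebraMap K Ω (x i)) ≤ v.1.ord (algebraMap K Ω (x l))) ∧
      L v = -v.1.ord (algebraMap K Ω (g i)))
    (hinf : ∀ v : B.P, B.res v = B.inf → ∀ l : Fin (s + 1),
      v.1.ord (algebraMap K Ω (yy ξ l.succ)) = -1)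
    {KK : IntermediateField k Ω} {c : ℕ} {lam : Ω} {w : B.P} (O : B.Out K' L s M KK c lam w) :
    ∃ δ : ℚ, 0 < δ ∧ ∃ᶠ t : ℕ in atTop, δ * (t : ℚ) ^ s ≤ finrank ℂ (SecS x g t 0) := by
  obtain ⟨i₀, hi, hLw⟩ := hL w
  obtain ⟨lam, rfl⟩ := (hK lam).1 O.mem
  let W : QVal K := w.1.comap (algebraMap K Ω)
  have hW : ∀ z, w.1.ord (algebraMap K Ω z) = W.ord z := fun _ => rfl
  have hk : ∀ a : k, W.ord (algebraMap k K a) = 0 := fun a => by
    rw [← hW, ← IsScalarTower.algebraMap_apply, IsScalarTower.algebraMap_apply k F₀ Ω]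
    exact B.triv _ w.2 a
  have hC : ∀ a : ℂ, W.Ge (algebraMap ℂ K a) 0 := fun a => by
    rw [IsScalarTower.algebraMap_apply ℂ k K]
    exact .of_le (hk _).ge
  have hy : ∀ l : Fin (s + 1), W.ord (ξ l.succ.succ) = W.ord (ξ 0) - 1 := fun l => by
    have := hinf w O.inf l
    rw [hW, yy, W.ord_div (S.ne _) (S.ne _)] at this
    linarith
  have hy0 : W.ord (ξ (Fin.succ 0)) = W.ord (ξ 0) := by
    have := hk t
    rw [ht, yy, W.ord_div (S.ne _) (S.ne _)] at this
    linarith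
  have hu : ∀ a : Fin s, ξ a.succ.succ.succ / ξ (Fin.succ (Fin.succ 0)) ∈ qO W := fun a =>
    .of_le (by rw [W.ord_div (S.ne _) (S.ne _), hy, hy, sub_self])
  have hS0 : ∀ z ∈ ({ξ 0 / ξ (Fin.succ (Fin.succ 0)), ξ (Fin.succ 0) / ξ (Fin.succ (Fin.succ 0))} :
      Set K), W.Gt z 0 := by
    rintro _ (rfl | rfl) <;> refine .of_lt ?_ <;> rw [W.ord_div (S.ne _) (S.ne _), hy] <;> linarith
  have hx : W.ord (ξ 0) - 1 ≤ W.ord (x i₀) := by
    have h1 := sop_Bd S (z := x i₀) (Submodule.subset_span ⟨i₀, rfl⟩) (qO W) 1 hC one_ne_zero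
      (by rw [inv_one]; exact one_mem _) (by
        rintro ⟨z, ⟨a, rfl⟩ | hz⟩
        · rw [div_one]
          exact hu a
        · rw [div_one]
          exact (hS0 z hz).ge)
    rw [one_pow, div_one, mem_qO, QVal.ge_div_iff (S.ne _), zero_add, hy] at h1
    exact h1.le (x i₀).ne_zero
  have hlam : lam ≠ 0 := fun h => O.ne (by rw [h, map_zero])
  obtain ⟨η, hη, hbig⟩ := O.big
  obtain ⟨j, hj⟩ := hbig.exists
  obtain ⟨ε, h1, h2⟩ := exists_rat_btwn hη
  refine g5 (k := k) frac norm hc hn (qO W) i₀ (fun l => ?_) (fun a => .of_le (hk a).ge) (vert K KK)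
    (fun z hz => .of_le (O.triv _ hz).ge)
    (fun e he => O.closed _ ((hK _).2 ⟨e, rfl⟩) (vert_alg he)) (lam := lam) O.pos ?_
    (Frequently.of_forall fun j => ?_) (η := ξ (Fin.succ (Fin.succ 0)))
    (fun a : Fin s => ξ a.succ.succ.succ / ξ (Fin.succ (Fin.succ 0)))
    {ξ 0 / ξ (Fin.succ (Fin.succ 0)), ξ (Fin.succ 0) / ξ (Fin.succ (Fin.succ 0))} (S.ne _) ?_ hu
    (fun z hz => qO_lt_one.2 (hS0 z hz)) (fun l => ?_) (j := j) (ε := ε) (by exact_mod_cast h1) ?_
  · rw [mem_qO, QVal.ge_div_iff (x i₀).ne_zero, zero_add]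
    exact .of_le (hi l)
  · refine qO_eq hlam (pow_ne_zero _ (g i₀).ne_zero) ?_
    have := O.unit
    rw [hLw, hW, hW] at this
    rw [W.ord_pow]
    linarith
  · have := O.fin j
    refine vert_fd (fun z hz => (hK z).1 (O.le z hz)) (inv_ne_zero (pow_ne_zero j (S.ne 0)))
      (T := {x : Ω | ∃ a : ℕ, x * algebraMap K Ω lam ^ a ∈ B.Γ K' (j • B.H + (a * c) • L)}) ?_
    rintro _ ⟨a, r, hr, rfl⟩
    refine ⟨a, ?_⟩
    rw [← map_pow, ← map_mul, mul_right_comm, div_mul_cancel₀ _ (pow_ne_zero _ hlam),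
      ← div_eq_mul_inv]
    exact sec _ _ _ hr
  · rw [mem_qO, QVal.ge_div_iff (x i₀).ne_zero, zero_add]
    exact vv_ge W hC hi (S.mem _)
  · have := isIntegral_of_Bd _ (sop_Bd S (z := x l) (Submodule.subset_span ⟨l, rfl⟩))
    rwa [Subtype.range_coe] at this
  · have t1 := (tame j).inf fun b => B.van w (j • B.H + b • L)
    rw [vd, vd, ← BL_sub (tame j).bdd t1.bdd] at hj
    refine (frequently_of_lt_BL ((tame j).bdd.sub t1.bdd) (h2.trans_le hj)).mono fun b hb => ?_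
    have n1 := fr_ne x g b j i₀
    have n2 := pow_ne_zero j (S.ne 0)
    let χ : K →ₗ[k] Ω := (IsScalarTower.toAlgHom k K Ω).toLinearMap ∘ₗ
      LinearMap.mulRight k (fr x g b j i₀ / ξ 0 ^ j)
    have hχ : ∀ z, χ z = algebraMap K Ω (z * (fr x g b j i₀ / ξ 0 ^ j)) := fun _ => rfl
    have inj : Function.Injective χ := fun z z' h =>
      mul_right_cancel₀ (div_ne_zero n1 n2) ((algebraMap K Ω).injective h)
    have h3 : M j b ≤ (Submodule.span k {z | ∃ r, Sec x g b j r ∧ z = r / fr x g b j i₀}).map χ := by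
      refine (hM j b).trans (Submodule.span_le.2 ?_)
      rintro _ ⟨r, hr, rfl⟩
      exact ⟨_, Submodule.subset_span ⟨r, hr, rfl⟩, by rw [hχ, div_mul_div_cancel₀ n1]⟩
    have := t1.fin b
    obtain ⟨h4, h5⟩ := fin_of_inj (X := (M j b ⊓ B.van w (j • B.H + b • L)).comap χ)
      (Y := M j b ⊓ B.van w (j • B.H + b • L)) χ (fun _ h => h) fun z _ h =>
        inj (by rw [h, map_zero])
    refine ⟨(M j b).comap χ, (M j b ⊓ B.van w (j • B.H + b • L)).comap χ, fun z hz => ?_,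
      fun z hz h => ⟨hz, ?_⟩, h4, ?_⟩
    · obtain ⟨z', h6, h7⟩ := h3 hz
      exact inj h7 ▸ h6
    · have h6 := (qO_lt_one.1 h).mul_ge (W.ge_ord (fr x g b j i₀ / ξ 0 ^ j))
      have h7 : B.H w = 1 := if_pos O.inf
      refine (w.1.comap_gt _ _ _).1 (h6.mono ?_)
      rw [W.ord_div n1 n2, fr, W.ord_mul (zpow_ne_zero _ (g i₀).ne_zero)
        (pow_ne_zero _ (x i₀).ne_zero), W.ord_zpow, W.ord_pow, W.ord_pow, Pi.add_apply,
        Pi.smul_apply, Pi.smul_apply, h7, hLw, hW, nsmul_eq_mul, nsmul_eq_mul, Int.cast_natCast]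
      nlinarith [mul_le_mul_of_nonneg_left hx (Nat.cast_nonneg (α := ℚ) j)]
    · have h6 : finrank k ((M j b).comap χ) = finrank k (M j b) := by
        rw [(Submodule.equivMapOfInjective χ inj _).finrank_eq, Submodule.map_comap_eq_of_le]
        exact h3.trans LinearMap.map_le_range
      have hp : (0 : ℝ) < ((b : ℝ) + 1) ^ s := by positivity
      rw [← sub_div, lt_div_iff₀ hp, lt_sub_iff_add_lt] at hb
      have h7 : (ε : ℝ) * ((b : ℝ) + 1) ^ s + finrank k ((M j b ⊓ B.van w (j • B.H + b • L)).comap χ)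
          ≤ finrank k (M j b) := le_trans (by gcongr) hb.le
      rw [h6]
      exact_mod_cast h7

end Pool.Agent.Lib.MP_bc213e_ag.KBD
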