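import Pool.Agent.Lib.MP_bc213e_ag.KBB.Main

/-! Lifting of sections from a subvariety, and comparison of twisted and untwisted sections. -/

namespace Pool.Agent.Lib.MP_bc213e_ag.KBD

open Pool.Agent.Lib.MP_bc213e_ag.Hyp Pool.Agent.Lib.MP_bc213e_ag.KBB Filter Module

variable {K ι : Type} [Field K] [Algebra ℂ K] {x g : ι → Kˣ}

theorem lift_has [Fintype ι] (g : ι → Kˣ) (J : Idl x) {i : ι} {r : K} (hr : r ∈ J.J i) :
    ∃ (δ : ℕ) (f : K), J.Has g 0 δ f ∧ f / fr x g 0 δ i = r := by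
  choose e he using fun l => J.glue i l r hr
  refine ⟨Finset.univ.sup e, r * fr x g 0 (Finset.univ.sup e) i, fun l => ?_,
    mul_div_cancel_right₀ _ (fr_ne _ _ _ _ _)⟩
  obtain ⟨m, hm⟩ := Nat.exists_eq_add_of_le (Finset.le_sup (f := e) (Finset.mem_univ l))
  have h := J.mul l _ (pow_mem (Basic_mem x l i) m) _ (he l)
  convert h using 1
  rw [fr_zero, fr_zero, hm, mul_div_assoc, ← div_pow, pow_add]
  ring

theorem lift_aux [Fintype ι] (hc : Cart x g) (hn : Nef x g) (J J₀ : Idl x) :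
    (∀ i, J₀.J i ≤ J.J i) → ∃ a₁ : ℕ, ∀ t a : ℕ, a₁ ≤ a → ∀ s ∈ J.Z0 g t a,
      ∃ s' ∈ J₀.Z0 g t a, s' - s ∈ J.C0 g t a := by
  refine Idl.induction (fun J₀ => (∀ i, J₀.J i ≤ J.J i) → ∃ a₁ : ℕ, ∀ t a : ℕ, a₁ ≤ a →
    ∀ s ∈ J.Z0 g t a, ∃ s' ∈ J₀.Z0 g t a, s' - s ∈ J.C0 g t a) (fun J₀ ih hle => ?_) J₀
  by_cases h : ∀ i, J.J i ≤ J₀.J i
  · obtain rfl : J₀ = J := main_ext fun i => le_antisymm (hle i) (h i)
    exact ⟨0, fun t a _ s hs => ⟨s, hs, by rw [sub_self]; exact zero_mem _⟩⟩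
  obtain ⟨i, hi⟩ := not_forall.1 h
  obtain ⟨r, hr, hr0⟩ := SetLike.not_le_iff_exists.1 hi
  obtain ⟨δ, f, hf, hfr⟩ := lift_has g J hr
  have hs : Sec x g 0 δ f := fun l => J.le l _ (hf l)
  have hle' : ∀ l, (J₀.adj hc hs).J l ≤ J.J l := fun l z hz => by
    obtain ⟨s, hs1, hs2⟩ := (J₀.mem_adj hc hs).1 hz
    have := add_mem (hle l hs2) (J.mul l s hs1 _ (hf l))
    rwa [sub_add_cancel] at this
  obtain ⟨a₁, h1⟩ := ih (J₀.adj hc hs) (J₀.le_adj hc hs)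
    ⟨i, r, hfr ▸ J₀.self_mem_adj hc hs i, hr0⟩ hle'
  obtain ⟨⟨a₂, h2⟩, -⟩ := good hc hn (J₀.colon hc hs)
  refine ⟨a₁ + a₂ + δ, fun t a ha s hs0 => ?_⟩
  obtain ⟨a', rfl⟩ : ∃ a', a = a' + δ := ⟨a - δ, by omega⟩
  obtain ⟨s₁, hs₁, e₁⟩ := h1 t _ (by omega) s hs0
  have h3 := J₀.add_lift hc hs (t := t) (a := a') (h2 t a' (by omega)).1 (s := s₁)
  rw [add_zero] at h3
  obtain ⟨s₂, hs₂, e₂⟩ := h3 hs₁
  refine ⟨s₂, hs₂, ?_⟩
  rw [← sub_add_sub_cancel s₂ s₁ s]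
  exact add_mem (fun l => hle' l (e₂ l)) e₁

/-- Sections on the integral subvariety lift, uniformly in `t`. -/
theorem lift_sec [Fintype ι] (hc : Cart x g) (hn : Nef x g) {J : Idl x} {F : Type} [Field F]
    [Algebra ℂ F] (R : Rd x g J F) : ∃ a₁ : ℕ, ∀ t a : ℕ, a₁ ≤ a → ∀ σ, Sec R.x' R.g' t a σ →
      ∃ s, Sec x g t a s ∧ R.ρ (s / fr x g t a R.i₀) = σ := by
  classical
  obtain ⟨a₁, h⟩ := lift_aux hc hn J (Idl.bot x) fun _ => bot_le
  refine ⟨a₁, fun t a ha σ hσ => ?_⟩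
  choose r hr hr' using fun i => R.surj_chart i (hσ i)
  let s : ι → K := fun i => if hi : (1 : K) ∈ J.J i then 0 else r ⟨i, hi⟩ * fr x g t a i
  have hs1 : ∀ i, s i / fr x g t a i ∈ chart x i := fun i => by
    by_cases hi : (1 : K) ∈ J.J i
    · simp only [s, dif_pos hi, zero_div]; exact zero_mem _
    · simp only [s, dif_neg hi]
      rw [mul_div_cancel_right₀ _ (fr_ne _ _ _ _ _)]
      exact hr ⟨i, hi⟩
  have hs2 : ∀ i : {i // (1 : K) ∉ J.J i}, R.ρ (s i / fr x g t a R.i₀) = σ := fun i => by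
    have h1 := (R.map_sec i (hs1 i)).2
    have h2 : s i / fr x g t a i = r i := by
      simp only [s, dif_neg i.2]
      exact mul_div_cancel_right₀ _ (fr_ne _ _ _ _ _)
    rw [h2, hr'] at h1
    exact (div_left_inj' (fr_ne _ _ _ _ _)).1 h1
  have hO : ∀ i l, L2 x (OX x) i l ((s l - s i) / fr x g t a i) := fun i l => by
    rw [sub_div, sub_eq_add_neg]
    exact (Idl.top x).l2_add ((Idl.top x).l2_fr hc ((Idl.top x).l2_of_mem i (hs1 l)))
      ((Idl.top x).l2_neg ((Idl.top x).l2_of_mem l (hs1 i)))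
  have hZ : s ∈ J.Z0 g t a := ⟨hs1, fun i l => by
    by_cases hi : (1 : K) ∈ J.J i
    · simpa using J.l2_mul (hO i l) (J.l2_of_mem l hi)
    by_cases hl : (1 : K) ∈ J.J l
    · simpa using J.l2_mul (hO i l) (J.l2_symm (J.l2_of_mem i hl))
    obtain ⟨e, he⟩ := hO i l
    refine ⟨e, (R.ker ⟨i, hi⟩ _ he).1 ?_⟩
    have h1 := (R.map_sec ⟨l, hl⟩ (hs1 l)).1
    have h2 := (R.map_sec ⟨i, hi⟩ (hs1 i)).1
    obtain ⟨h3, h4⟩ := R.ρ_fr t a ⟨i, hi⟩
    obtain ⟨h5, h6⟩ := R.ρ_div (sub_mem h1 h2) h3 (by rw [h4]; exact fr_ne _ _ _ _ _)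
    rw [← sub_div, div_div_div_cancel_right₀ (fr_ne _ _ _ _ _)] at h5 h6
    rw [R.ρ_mul _ h5 _ (pow_mem (R.le ⟨i, hi⟩ _ (Basic_mem x i l)) e), h6, sub_div, map_sub,
      hs2 ⟨l, hl⟩, hs2 ⟨i, hi⟩, sub_self, zero_div, zero_mul]⟩
  obtain ⟨s', hs', e⟩ := h t a ha s hZ
  refine ⟨s' R.i₀, fun l => ?_, ?_⟩
  · obtain ⟨m, hm⟩ := hs'.2 l R.i₀
    have h0 : s' R.i₀ = s' l := by
      have h1 : (s' R.i₀ - s' l) / fr x g t a l * ((x R.i₀ : K) / x l) ^ m = 0 := hm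
      simpa [fr_ne, sub_eq_zero] using h1
    rw [h0]
    exact hs'.1 l
  · have h1 := (R.ker R.i₀ _ (J.le _ _ (e R.i₀))).2 (e R.i₀)
    rwa [Pi.sub_apply, sub_div, map_sub, hs2 R.i₀, sub_eq_zero] at h1

theorem sec_mul {t t' : ℤ} {a a' : ℕ} {s s' : K} (h : Sec x g t a s) (h' : Sec x g t' a' s') :
    Sec x g (t + t') (a + a') (s * s') := fun i => by
  have := mul_mem (sec_iff_fr.1 h i) (sec_iff_fr.1 h' i)
  rwa [div_mul_div_comm, ← fr_add] at this

theorem sec_one (x g : ι → Kˣ) : Sec x g 0 0 1 := fun i => by simp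

theorem sec_pow {t : ℤ} {a : ℕ} {s : K} (h : Sec x g t a s) (n : ℕ) :
    Sec x g (n * t) (n * a) (s ^ n) := by
  induction n with
  | zero => simpa using sec_one x g
  | succ n ih =>
    have := sec_mul ih h
    rwa [← pow_succ, ← add_one_mul, ← add_one_mul, ← Nat.cast_succ] at this

theorem sec_x (x g : ι → Kˣ) (i : ι) (m : ℕ) : Sec x g 0 m ((x i : K) ^ m) := fun l => by
  rw [zpow_zero, one_mul, ← div_pow]
  exact pow_mem (Basic_mem x l i) m

theorem secS_mono {i₀ : ι} (one : x i₀ = 1) (t : ℤ) (a m : ℕ) :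
    SecS x g t a ≤ SecS x g t (a + m) := fun s hs => by
  have := sec_mul (show Sec x g t a s from hs) (sec_x x g i₀ m)
  rwa [one, Units.val_one, one_pow, mul_one, add_zero] at this

theorem secS_fd [Fintype ι] (hc : Cart x g) (hn : Nef x g) (i₀ : ι) (t a : ℕ) :
    FiniteDimensional ℂ (SecS x g t a) := by
  have : Nonempty ι := ⟨i₀⟩
  obtain ⟨P, a₀, h⟩ := uniform x g hc hn
  have := (h t (a + a₀) (by omega)).1
  refine .of_injective (((LinearMap.mulRight ℂ ((x i₀ : K) ^ a₀)).domRestrict _).codRestrict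
    (SecS x g t (a + a₀)) fun s => ?_) fun s s' e => ?_
  · have := sec_mul (show Sec x g t a s.1 from s.2) (sec_x x g i₀ a₀)
    rwa [add_zero] at this
  · exact Subtype.ext (mul_right_cancel₀ (pow_ne_zero a₀ (x i₀).ne_zero) (congrArg Subtype.val e))

theorem lift_pi [Fintype ι] (W : Type) [AddCommGroup W] [Module ℂ W] [FiniteDimensional ℂ W] :
    finrank ℂ (ι → W) = Fintype.card ι * finrank ℂ W := by
  rw [finrank_pi_fintype]
  simp

/-- Twisted sections are compared with untwisted ones through generators of `e H - L`. -/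
theorem twist_le [Fintype ι] (hc : Cart x g) (hn : Nef x g) {i₀ : ι} (one : x i₀ = 1) :
    ∃ e : ℕ, 0 < e ∧ ∀ b j : ℕ, finrank ℂ (SecS x g b j) + Fintype.card ι *
      finrank ℂ (SecS x g 0 (b * e)) ≤ finrank ℂ (SecS x g b 0) + Fintype.card ι *
      finrank ℂ (SecS x g 0 (b * e + j)) := by
  obtain ⟨E, hE0, hE⟩ : ∃ E : ℕ, 0 < E ∧ ∀ l, Sec x g (-1) E (fr x g (-1) E l) := by
    choose e he using fun l => main_sec hc (-1) l
    refine ⟨Finset.univ.sup e + 1, Nat.succ_pos _, fun l => ?_⟩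
    obtain ⟨m, hm⟩ := Nat.exists_eq_add_of_le ((Finset.le_sup (f := e)
      (Finset.mem_univ l)).trans (Nat.le_succ _) : e l ≤ Finset.univ.sup e + 1)
    have := sec_mul (he l) (sec_x x g l m)
    rwa [← fr_zero x g, ← fr_add, add_zero, ← hm] at this
  refine ⟨E, hE0, fun b j => ?_⟩
  have f1 := secS_fd hc hn i₀ b j
  have f2 := secS_fd hc hn i₀ b 0
  have f3 : FiniteDimensional ℂ (SecS x g 0 (b * E + j)) := secS_fd hc hn i₀ 0 (b * E + j)
  let U := SecS x g 0 (b * E + j)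
  let U0 : Submodule ℂ U := (SecS x g 0 (b * E)).comap U.subtype
  let Φ : SecS x g b j →ₗ[ℂ] ι → U ⧸ U0 := LinearMap.pi fun l => U0.mkQ ∘ₗ
    ((LinearMap.mulLeft ℂ (fr x g (-1) E l ^ b)).domRestrict _).codRestrict U fun s => by
      have := sec_mul (sec_pow (hE l) b) (show Sec x g b j s.1 from s.2)
      rwa [mul_neg, mul_one, neg_add_cancel] at this
  have h1 := Φ.finrank_range_add_finrank_ker
  have h2 : finrank ℂ (LinearMap.range Φ) ≤ Fintype.card ι * finrank ℂ (U ⧸ U0) :=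
    (Submodule.finrank_le _).trans (lift_pi _).le
  have h3 : finrank ℂ (U ⧸ U0) + finrank ℂ (SecS x g 0 (b * E)) = finrank ℂ U := by
    rw [← (Submodule.comapSubtypeEquivOfLe (secS_mono one 0 (b * E) j)).finrank_eq]
    exact U0.finrank_quotient_add_finrank
  have h4 : finrank ℂ (LinearMap.ker Φ) ≤ finrank ℂ (SecS x g b 0) := by
    rw [← Submodule.finrank_map_subtype_eq]
    refine Submodule.finrank_mono ?_
    rintro _ ⟨s, hs, rfl⟩ l
    have h5 : Sec x g 0 (b * E) (fr x g (-1) E l ^ b * s) :=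
      (Submodule.Quotient.mk_eq_zero U0).1 (congrFun (LinearMap.mem_ker.1 hs) l)
    convert h5 l using 1
    have h6 : (g l : K) ≠ 0 := Units.ne_zero _
    have h7 : (x l : K) ≠ 0 := Units.ne_zero _
    simp only [fr, zpow_neg, zpow_one, zpow_natCast, pow_zero, mul_one, zpow_zero, one_mul,
      mul_pow, ← pow_mul, mul_comm E b, inv_pow, Submodule.subtype_apply]
    field_simp
  change _ ≤ _ + _ * finrank ℂ U
  rw [← h3, mul_add]
  omega

theorem finrank_le_mul [Fintype ι] (hc : Cart x g) (hn : Nef x g) (i₀ : ι) {c : ℕ} (hc0 : 0 < c)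
    (b : ℕ) : finrank ℂ (SecS x g b 0) ≤ finrank ℂ (SecS x g ((b * c : ℕ) : ℤ) 0) := by
  by_cases h : SecS x g b 0 = ⊥
  · rw [h, finrank_bot]; exact Nat.zero_le _
  obtain ⟨σ, hσ, h0⟩ := Submodule.exists_mem_ne_zero_of_ne_bot h
  obtain ⟨c, rfl⟩ : ∃ c', c = c' + 1 := ⟨c - 1, by omega⟩
  have := secS_fd hc hn i₀ (b * (c + 1)) 0
  refine LinearMap.finrank_le_finrank_of_injective (f := ((LinearMap.mulLeft ℂ
    (σ ^ c)).domRestrict _).codRestrict (SecS x g ((b * (c + 1) : ℕ) : ℤ) 0) fun s => ?_)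
    fun s s' e => ?_
  · have := sec_mul (sec_pow (show Sec x g b 0 σ from hσ) c) (show Sec x g b 0 s.1 from s.2)
    have e : ((b * (c + 1) : ℕ) : ℤ) = c * b + b := by push_cast; ring
    rw [e]
    exact this
  · exact Subtype.ext (mul_left_cancel₀ (pow_ne_zero c h0) (congrArg Subtype.val e))

end Pool.Agent.Lib.MP_bc213e_ag.KBD
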